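import Mathlib

/-!
# Adding an edge to a graph with few edges: core
-/

set_option autoImplicit false

namespace Run7.h593.DS

open Finset Classical

variable {V : Type} {G : SimpleGraph V} {x y : V}

theorem edge_cases {e : Sym2 V} (he : e ∈ (G ⊔ SimpleGraph.edge x y).edgeSet) :
    e ∈ G.edgeSet ∨ e = s(x, y) := by
  induction e using Sym2.ind with
  | _ a b =>
  rw [SimpleGraph.mem_edgeSet, SimpleGraph.sup_adj] at he
  rcases he with h | h
  · left
    exact h
  · right
    rw [SimpleGraph.edge_adj] at h
    rcases h.1 with ⟨h1, h2⟩ | ⟨h1, h2⟩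
    · rw [h1, h2]
    · rw [h1, h2]
      exact Sym2.eq_swap

theorem avoid {u v : V} (w : (G ⊔ SimpleGraph.edge x y).Walk u v) (he : s(x, y) ∉ w.edges) :
    ∀ e ∈ w.edges, e ∈ G.edgeSet := by
  intro e h
  rcases edge_cases (w.edges_subset_edgeSet h) with h1 | h1
  · exact h1
  · rw [h1] at h
    exact absurd h he

theorem split {u v : V} (w : (G ⊔ SimpleGraph.edge x y).Walk u v) (hn : w.edges.Nodup)
    (he : s(x, y) ∈ w.edges) : ∃ (p q : V) (w1 : G.Walk u p) (w2 : G.Walk q v),
      ((p = x ∧ q = y) ∨ (p = y ∧ q = x)) ∧ w1.length + w2.length + 1 = w.length := by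
  induction w with
  | nil => simp at he
  | @cons u a v h p ih =>
    rw [SimpleGraph.Walk.edges_cons] at hn he
    rw [List.nodup_cons] at hn
    by_cases h1 : s(x, y) = s(u, a)
    · have h2 : s(x, y) ∉ p.edges := by
        rw [h1]
        exact hn.1
      have h3 := avoid p h2
      rcases Sym2.eq_iff.1 h1 with ⟨h4, h5⟩ | ⟨h4, h5⟩
      · refine ⟨u, a, SimpleGraph.Walk.nil, p.transfer G h3, Or.inl ⟨h4.symm, h5.symm⟩, ?_⟩
        simp
      · refine ⟨u, a, SimpleGraph.Walk.nil, p.transfer G h3, Or.inr ⟨h5.symm, h4.symm⟩, ?_⟩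
        simp
    · have he' : s(x, y) ∈ p.edges := (List.mem_cons.1 he).resolve_left h1
      obtain ⟨p', q', w1, w2, hpq, hl⟩ := ih hn.2 he'
      have hadj : G.Adj u a := by
        have h2 : s(u, a) ∈ (G ⊔ SimpleGraph.edge x y).edgeSet := h
        rcases edge_cases h2 with h3 | h3
        · exact h3
        · exact absurd h3.symm h1
      refine ⟨p', q', SimpleGraph.Walk.cons hadj w1, w2, hpq, ?_⟩
      rw [SimpleGraph.Walk.length_cons, SimpleGraph.Walk.length_cons]
      omega

theorem girth_add {g : ℕ} (hG : ∀ (v : V) (c : G.Walk v v), c.IsCycle → g < c.length)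
    (hd : ∀ w : G.Walk x y, g ≤ w.length) :
    ∀ (v : V) (c : (G ⊔ SimpleGraph.edge x y).Walk v v), c.IsCycle → g < c.length := by
  intro v c hc
  by_cases he : s(x, y) ∈ c.edges
  · obtain ⟨p, q, w1, w2, hpq, hl⟩ := split c hc.isTrail.edges_nodup he
    have h1 : (w2.append w1).length = w2.length + w1.length := SimpleGraph.Walk.length_append _ _
    rcases hpq with ⟨rfl, rfl⟩ | ⟨rfl, rfl⟩
    · have h2 := hd (w2.append w1).reverse
      rw [SimpleGraph.Walk.length_reverse] at h2
      omega
    · have h2 := hd (w2.append w1)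
      omega
  · have h1 := avoid c he
    have h2 := hG v (c.transfer G h1) (hc.transfer h1)
    rwa [SimpleGraph.Walk.length_transfer] at h2

/-- the ball -/
noncomputable def ball {n : ℕ} (G : SimpleGraph (Fin n)) (x : Fin n) (j : ℕ) : Finset (Fin n) :=
  univ.filter fun y => ∃ w : G.Walk x y, w.length ≤ j

theorem card_ball {n : ℕ} {G : SimpleGraph (Fin n)} {D : ℕ}
    (hD : ∀ x, (univ.filter fun y => G.Adj x y).card ≤ D) (x : Fin n) (j : ℕ) :
    (ball G x j).card ≤ (D + 1) ^ j := by
  induction j with
  | zero =>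
    have h1 : ball G x 0 ⊆ {x} := by
      intro y hy
      obtain ⟨w, hw⟩ := (mem_filter.1 hy).2
      have h2 := SimpleGraph.Walk.eq_of_length_eq_zero (Nat.le_zero.1 hw)
      rw [mem_singleton]
      exact h2.symm
    simpa using card_le_card h1
  | succ j ih =>
    have h1 : ball G x (j + 1) ⊆
        (ball G x j).biUnion fun z => insert z (univ.filter fun y => G.Adj z y) := by
      intro y hy
      obtain ⟨w, hw⟩ := (mem_filter.1 hy).2
      rw [mem_biUnion]
      have h2 : ∀ w' : G.Walk y x, w'.length ≤ j + 1 →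
          ∃ a ∈ ball G x j, y ∈ insert a (univ.filter fun y => G.Adj a y) := by
        intro w' hw'
        cases w' with
        | nil =>
          exact ⟨x, mem_filter.2 ⟨mem_univ _, SimpleGraph.Walk.nil, by simp⟩,
            mem_insert_self _ _⟩
        | @cons _ a _ h p =>
          rw [SimpleGraph.Walk.length_cons] at hw'
          refine ⟨a, mem_filter.2 ⟨mem_univ _, p.reverse, ?_⟩, ?_⟩
          · rw [SimpleGraph.Walk.length_reverse]
            omega
          · exact mem_insert_of_mem (mem_filter.2 ⟨mem_univ _, h.symm⟩)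
      exact h2 w.reverse (by rw [SimpleGraph.Walk.length_reverse]; exact hw)
    calc (ball G x (j + 1)).card ≤ _ := card_le_card h1
      _ ≤ (ball G x j).card * (D + 1) := by
          apply card_biUnion_le_card_mul
          intro z _
          exact (card_insert_le _ _).trans (Nat.add_le_add_right (hD z) 1)
      _ ≤ (D + 1) ^ j * (D + 1) := Nat.mul_le_mul_right _ ih
      _ = (D + 1) ^ (j + 1) := (pow_succ _ _).symm

theorem deg_add {n : ℕ} {G : SimpleGraph (Fin n)} {D : ℕ}
    (hD : ∀ x, (univ.filter fun y => G.Adj x y).card ≤ D) {x y : Fin n}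
    (hx : (univ.filter fun z => G.Adj x z).card < D)
    (hy : (univ.filter fun z => G.Adj y z).card < D) (v : Fin n) :
    (univ.filter fun z => (G ⊔ SimpleGraph.edge x y).Adj v z).card ≤ D := by
  by_cases hvx : v = x
  · subst hvx
    have h1 : (univ.filter fun z => (G ⊔ SimpleGraph.edge v y).Adj v z) ⊆
        insert y (univ.filter fun z => G.Adj v z) := by
      intro z hz
      have h2 := (mem_filter.1 hz).2
      rw [SimpleGraph.sup_adj, SimpleGraph.edge_adj] at h2
      rcases h2 with h2 | ⟨⟨-, h3⟩ | ⟨h3, h4⟩, h5⟩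
      · exact mem_insert_of_mem (mem_filter.2 ⟨mem_univ _, h2⟩)
      · rw [h3]
        exact mem_insert_self _ _
      · exact absurd h4.symm h5
    have h2 := (card_le_card h1).trans (card_insert_le _ _)
    omega
  · by_cases hvy : v = y
    · subst hvy
      have h1 : (univ.filter fun z => (G ⊔ SimpleGraph.edge x v).Adj v z) ⊆
          insert x (univ.filter fun z => G.Adj v z) := by
        intro z hz
        have h2 := (mem_filter.1 hz).2
        rw [SimpleGraph.sup_adj, SimpleGraph.edge_adj] at h2
        rcases h2 with h2 | ⟨⟨h3, h4⟩ | ⟨h3, h4⟩, h5⟩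
        · exact mem_insert_of_mem (mem_filter.2 ⟨mem_univ _, h2⟩)
        · exact absurd h3 hvx
        · rw [h4]
          exact mem_insert_self _ _
      have h2 := (card_le_card h1).trans (card_insert_le _ _)
      omega
    · have h1 : (univ.filter fun z => (G ⊔ SimpleGraph.edge x y).Adj v z) ⊆
          (univ.filter fun z => G.Adj v z) := by
        intro z hz
        have h2 := (mem_filter.1 hz).2
        rw [SimpleGraph.sup_adj, SimpleGraph.edge_adj] at h2
        rcases h2 with h2 | ⟨⟨h3, h4⟩ | ⟨h3, h4⟩, h5⟩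
        · exact mem_filter.2 ⟨mem_univ _, h2⟩
        · exact absurd h3 hvx
        · exact absurd h3 hvy
      exact (card_le_card h1).trans (hD v)

theorem add_core (g D : ℕ) (hD3 : 3 ≤ D) : ∃ n₀ : ℕ, ∀ n : ℕ, n₀ ≤ n →
    ∀ G : SimpleGraph (Fin n), ((∀ (x : Fin n) (c : G.Walk x x), c.IsCycle → g < c.length) ∧
      ∀ x, (univ.filter fun y => G.Adj x y).card ≤ D) →
    2 * (∑ x, (univ.filter fun y => G.Adj x y).card) ≤ 3 * n →
    n ^ 2 ≤ 32 * (univ.filter fun z : Fin n × Fin n => z.1 < z.2 ∧ ¬ G.Adj z.1 z.2 ∧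
      ((∀ (x : Fin n) (c : (G ⊔ SimpleGraph.edge z.1 z.2).Walk x x), c.IsCycle → g < c.length) ∧
        ∀ x, (univ.filter fun y => (G ⊔ SimpleGraph.edge z.1 z.2).Adj x y).card ≤ D)).card := by
  refine ⟨3 * (D + 1) ^ (g + 1), fun n hn G ⟨hG, hD⟩ hsum => ?_⟩
  set K : ℕ := (D + 1) ^ (g + 1) with hK
  set S : Finset (Fin n) := univ.filter fun x => (univ.filter fun y => G.Adj x y).card < D with hS
  set A : Finset (Fin n × Fin n) := univ.filter fun z : Fin n × Fin n => z.1 < z.2 ∧
      ¬ G.Adj z.1 z.2 ∧
      ((∀ (x : Fin n) (c : (G ⊔ SimpleGraph.edge z.1 z.2).Walk x x), c.IsCycle → g < c.length) ∧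
        ∀ x, (univ.filter fun y => (G ⊔ SimpleGraph.edge z.1 z.2).Adj x y).card ≤ D) with hA
  -- the vertices of small degree
  have hS2 : n ≤ 2 * S.card := by
    have h1 : S.card + (univ.filter fun x => ¬ (univ.filter fun y => G.Adj x y).card < D).card =
        n := by
      have := card_filter_add_card_filter_not (s := (univ : Finset (Fin n)))
        (fun x => (univ.filter fun y => G.Adj x y).card < D)
      rwa [card_univ, Fintype.card_fin] at this
    have h2 : (univ.filter fun x => ¬ (univ.filter fun y => G.Adj x y).card < D).card * D ≤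
        ∑ x, (univ.filter fun y => G.Adj x y).card := by
      calc (univ.filter fun x => ¬ (univ.filter fun y => G.Adj x y).card < D).card * D
          = ∑ x ∈ univ.filter fun x => ¬ (univ.filter fun y => G.Adj x y).card < D, D := by
            rw [sum_const, smul_eq_mul]
        _ ≤ ∑ x ∈ univ.filter fun x => ¬ (univ.filter fun y => G.Adj x y).card < D,
              (univ.filter fun y => G.Adj x y).card := by
            apply sum_le_sum
            intro x hx
            exact not_lt.1 (mem_filter.1 hx).2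
        _ ≤ _ := sum_le_sum_of_subset (filter_subset _ _)
    have h3 : (univ.filter fun x => ¬ (univ.filter fun y => G.Adj x y).card < D).card * 3 ≤
        (univ.filter fun x => ¬ (univ.filter fun y => G.Adj x y).card < D).card * D :=
      Nat.mul_le_mul_left _ hD3
    omega
  -- the pairs
  set T : Finset (Fin n × Fin n) := (S ×ˢ S).filter fun z => ¬ z.2 ∈ ball G z.1 (g + 1) with hT
  have hT1 : S.card * S.card ≤ T.card + S.card * K := by
    have h1 := card_filter_add_card_filter_not (s := S ×ˢ S)
      (fun z : Fin n × Fin n => z.2 ∈ ball G z.1 (g + 1))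
    rw [card_product] at h1
    have h2 : ((S ×ˢ S).filter fun z => z.2 ∈ ball G z.1 (g + 1)).card ≤ S.card * K := by
      rw [card_filter, sum_product]
      calc ∑ x ∈ S, ∑ y ∈ S, (if y ∈ ball G x (g + 1) then 1 else 0)
          ≤ ∑ x ∈ S, K := by
            apply sum_le_sum
            intro x _
            rw [← card_filter]
            refine le_trans (card_le_card ?_) (card_ball hD x (g + 1))
            intro y hy
            exact (mem_filter.1 hy).2
        _ = S.card * K := by rw [sum_const, smul_eq_mul]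
    have h3 : T.card = ((S ×ˢ S).filter fun z => ¬ z.2 ∈ ball G z.1 (g + 1)).card := rfl
    omega
  have hfar : ∀ x y : Fin n, ¬ y ∈ ball G x (g + 1) → ∀ w : G.Walk x y, g + 1 < w.length := by
    intro x y h w
    by_contra h1
    exact h (mem_filter.2 ⟨mem_univ _, w, not_lt.1 h1⟩)
  have hgood : ∀ x y : Fin n, x ∈ S → y ∈ S → (∀ w : G.Walk x y, g + 1 < w.length) → x < y →
      (x, y) ∈ A := by
    intro x y hx hy hw hxy
    refine mem_filter.2 ⟨mem_univ _, hxy, ?_, girth_add hG fun w => by have := hw w; omega,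
      deg_add hD (mem_filter.1 hx).2 (mem_filter.1 hy).2⟩
    intro h
    have h1 := hw (SimpleGraph.Walk.cons h SimpleGraph.Walk.nil)
    simp at h1
  have hTA : T ⊆ A ∪ A.image Prod.swap := by
    rintro ⟨x, y⟩ hz
    obtain ⟨h1, h2⟩ := mem_filter.1 hz
    obtain ⟨hx, hy⟩ := mem_product.1 h1
    have hw := hfar x y h2
    rcases lt_trichotomy x y with h3 | h3 | h3
    · exact mem_union_left _ (hgood x y hx hy hw h3)
    · exfalso
      subst h3
      have := hw SimpleGraph.Walk.nil
      simp at this
    · apply mem_union_right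
      rw [mem_image]
      refine ⟨(y, x), hgood y x hy hx (fun w => ?_) h3, rfl⟩
      have := hw w.reverse
      rwa [SimpleGraph.Walk.length_reverse] at this
  have hT2 : T.card ≤ 2 * A.card := by
    have h1 := (card_le_card hTA).trans (card_union_le _ _)
    have h2 : (A.image Prod.swap).card ≤ A.card := card_image_le
    omega
  -- the numbers
  have h1 : K ≤ S.card := by omega
  obtain ⟨t, ht⟩ := Nat.exists_eq_add_of_le h1
  have h2 : S.card * t ≤ T.card := by
    have : S.card * S.card = S.card * K + S.card * t := by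
      conv_lhs => rw [ht, ← ht]
      rw [← Nat.mul_add, ← ht]
    omega
  have h3 : n ≤ 2 * S.card := hS2
  have h4 : n ≤ 8 * t := by omega
  have h5 : n ^ 2 ≤ 16 * (S.card * t) := by
    calc n ^ 2 = n * n := sq n
      _ ≤ (2 * S.card) * (8 * t) := Nat.mul_le_mul h3 h4
      _ = 16 * (S.card * t) := by ring
  calc n ^ 2 ≤ 16 * (S.card * t) := h5
    _ ≤ 16 * (2 * A.card) := Nat.mul_le_mul_left _ (h2.trans hT2)
    _ = 32 * A.card := by ring

end Run7.h593.DS
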