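import Pool.Agent.Run7.h932.DS.Stm2
import Pool.Agent.Run7.h593.DS.ADDc

/-!
# Piece ADD: many edges can be added to a graph with few edges
-/

set_option autoImplicit false

namespace Run7.h593.DS

open Finset Classical Run7.h932.DS

/-- **ADD** -/
theorem t_ADD : S_ADD := by
  intro g D hD
  obtain ⟨n₀, h⟩ := add_core g D hD
  refine ⟨n₀, fun n hn G hG hs => ?_⟩
  refine (h n hn G hG hs).trans (le_of_eq ?_)
  congr 2
  ext z
  simp only [mem_filter, mem_univ, true_and]
  constructor
  · rintro ⟨h1, h2, h3, h4⟩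
    refine ⟨h1, h2, h3, fun x => ?_⟩
    unfold dgs
    convert h4 x
  · rintro ⟨h1, h2, h3, h4⟩
    refine ⟨h1, h2, h3, fun x => ?_⟩
    have h5 := h4 x
    unfold dgs at h5
    convert h5

end Run7.h593.DS
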